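import Mathlib
import Pool.Agent.H759R2.Kad.Props

open scoped ComplexOrder InnerProductSpace ComplexConjugate
open Finset

noncomputable section

namespace H759R2.Kad

universe u v

theorem prove_trunc : St_trunc.{u} := by
  intro B _ _ _ S t hS ht
  have hc1 : Continuous (fun s : ℝ => max (-t) (min s t)) := by fun_prop
  have hc2 : Continuous (fun s : ℝ => s - max (-t) (min s t)) := by fun_prop
  refine ⟨cfc (fun s : ℝ => max (-t) (min s t)) S,
    cfc (fun s : ℝ => s - max (-t) (min s t)) S, cfc_predicate _ _, cfc_predicate _ _, ?_, ?_, ?_⟩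
  · rw [← cfc_add (a := S) (fun s : ℝ => max (-t) (min s t)) (fun s : ℝ => s - max (-t) (min s t))
      hc1.continuousOn hc2.continuousOn]
    have : (fun s : ℝ => max (-t) (min s t) + (s - max (-t) (min s t))) = fun s => s := by
      funext s
      ring
    rw [this, cfc_id' ℝ S hS]
  · refine norm_cfc_le ht.le fun s _ => ?_
    rw [Real.norm_eq_abs, abs_le]
    constructor
    · exact le_max_left _ _
    · exact max_le (by linarith) (min_le_right _ _)
  · rw [← cfc_pow (a := S) (fun s : ℝ => s - max (-t) (min s t)) 2 hc2.continuousOn hS]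
    have h4 : S ^ 4 = cfc (fun s : ℝ => s ^ 4) S := by
      rw [cfc_pow_id S 4 hS]
    rw [h4, ← cfc_smul (1 / (16 * t ^ 2) : ℝ) (fun s : ℝ => s ^ 4) S (by fun_prop)]
    refine cfc_mono (fun s _ => ?_) (by fun_prop) (by fun_prop)
    rw [smul_eq_mul]
    have ht2 : 0 < 16 * t ^ 2 := by positivity
    rw [div_mul_eq_mul_div, one_mul, le_div_iff₀ ht2]
    have key : |s - max (-t) (min s t)| * (4 * t) ≤ s ^ 2 := by
      rcases le_total s t with h1 | h1
      · rw [min_eq_left h1]
        rcases le_total (-t) s with h2 | h2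
        · rw [max_eq_right h2, sub_self, abs_zero, zero_mul]
          positivity
        · rw [max_eq_left h2]
          rw [abs_of_nonpos (by linarith)]
          nlinarith [sq_nonneg (s + 2 * t)]
      · rw [min_eq_right h1, max_eq_right (by linarith), abs_of_nonneg (by linarith)]
        nlinarith [sq_nonneg (s - 2 * t)]
    have h0 : 0 ≤ |s - max (-t) (min s t)| * (4 * t) := by positivity
    have h1 := pow_le_pow_left₀ h0 key 2
    calc (s - max (-t) (min s t)) ^ 2 * (16 * t ^ 2)
        = (|s - max (-t) (min s t)| * (4 * t)) ^ 2 := by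
          rw [mul_pow, sq_abs]
          ring
      _ ≤ (s ^ 2) ^ 2 := h1
      _ = s ^ 4 := by ring

end H759R2.Kad
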